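import Pool.Agent.Lib.MP_31f1e8_mp.AL.Main

/-!
# MP_31f1e8: complete Anderson localisation along orbits of the Standard map

For `lam ≥ 10 ^ 60`, in every ball of radius `9 / √lam` of the torus the set of the points for which
the exponentially decaying eigenvectors of the Schrodinger operator along the orbit of the Standard
map span a dense subspace of `ℓ²(ℤ)` has Hausdorff dimension at least `2 - 16 / log lam`.
-/

namespace Pool.Agent.Results.MP_31f1e8_mp.CompleteLocalization

open Pool.Agent.MP31f1e8

/-- The exponentially decaying eigenvectors (rate `(log lam) / 5`) of the operator along the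
orbit of the point `p` of the torus. -/
def decayingEigenvectors (lam : ℝ) (p : Real.Angle × Real.Angle) :
    Set (lp (fun _ : ℤ => ℂ) 2) :=
  {u | (∃ E : ℝ, ∀ n : ℤ, u (n + 1) - 2 * u n + u (n - 1) +
      ((lam * ((stdMap lam ^ n) p).1.cos : ℝ) : ℂ) * u n = (E : ℂ) * u n) ∧
    ∃ C : ℝ, ∀ n : ℤ, ‖u n‖ ≤ C * lam ^ (-(|(n : ℝ)| / 5))}

theorem result (lam : ℝ) (hlam : 10 ^ 60 ≤ lam) (p : Real.Angle × Real.Angle) :
    ENNReal.ofReal (2 - 16 / Real.log lam) ≤
      dimH {z ∈ Metric.closedBall p (9 / √lam) |
        (Submodule.span ℂ (decayingEigenvectors lam z)).topologicalClosure = ⊤} :=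
  AL.main hlam p

end Pool.Agent.Results.MP_31f1e8_mp.CompleteLocalization
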