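import Pool.Agent.Lib.MP_31f1e8_mp.Base

/-!
# MP_31f1e8: the points of the torus whose operator has an eigenvalue

For `lam ≥ 1600`, in every ball of radius `9 / √lam` of the torus the set of the points `(x, y)` for
which the Schrodinger operator along the orbit of the Standard map has an eigenvalue has Hausdorff
dimension at least `2 - 36 / (√lam * log lam)`.
-/

namespace Pool.Agent.Results.MP_31f1e8_mp.LocalDimension

open Pool.Agent.MP31f1e8 Finset

theorem result (lam : ℝ) (hlam : 1600 ≤ lam) (p : Real.Angle × Real.Angle) :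
    ENNReal.ofReal (2 - 36 / (√lam * Real.log lam)) ≤
      dimH {z ∈ Metric.closedBall p (9 / √lam) | (pointSpectrum lam z).Nonempty} := by
  classical
  obtain ⟨q1, q2, q3, q4, -, -, -⟩ := param hlam
  have hpi := Real.pi_gt_three
  have hlam0 : 0 < lam := by linarith
  obtain ⟨ι, hι, A, B, k, M, hAB, hk, hM, hder, hcov, hsep, hsum, hden⟩ := exists_base hlam
  obtain ⟨q, hq⟩ : ∃ q : ℝ, q = √lam := ⟨_, rfl⟩
  have hq0 : 0 < q := by rw [hq]; linarith
  have hq1 : 40 ≤ q := by rw [hq]; exact q1
  -- the logarithm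
  have hlogq : 1 ≤ Real.log q := by
    rw [Real.le_log_iff_exp_le hq0]
    linarith [Real.exp_one_lt_d9]
  have hlog : Real.log lam = 2 * Real.log q := by
    rw [← q2, ← hq, Real.log_pow]
    push_cast
    ring
  obtain ⟨s, hsd⟩ : ∃ s : ℝ, s = 1 - 9 / (q * Real.log q) := ⟨_, rfl⟩
  have hql : 40 ≤ q * Real.log q := by nlinarith
  have hs9 : 9 / (q * Real.log q) ≤ 1 / 4 := by
    rw [div_le_div_iff₀ (by linarith) (by norm_num)]
    linarith
  have hs9' : 0 ≤ 9 / (q * Real.log q) := by positivity
  have hs0 : 0 < s := by rw [hsd]; linarith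
  have hs1 : s ≤ 1 := by rw [hsd]; linarith
  have h2s : 2 * s = 2 - 36 / (√lam * Real.log lam) := by
    rw [hsd, hlog, ← hq]
    have : q ≠ 0 := hq0.ne'
    have : Real.log q ≠ 0 := by linarith
    field_simp
    ring
  rw [← h2s]
  -- the branches with signs
  obtain ⟨a, ha⟩ : ∃ a : ι × Bool → ℝ, a = fun c => if c.2 then A c.1 else -B c.1 := ⟨_, rfl⟩
  obtain ⟨b, hb⟩ : ∃ b : ι × Bool → ℝ, b = fun c => if c.2 then B c.1 else -A c.1 := ⟨_, rfl⟩
  obtain ⟨K, hK⟩ : ∃ K : ι × Bool → ℤ, K = fun c => if c.2 then k c.1 else -k c.1 := ⟨_, rfl⟩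
  have hat : ∀ c, a (c, true) = A c := by intro c; rw [ha]; rfl
  have haf : ∀ c, a (c, false) = -B c := by intro c; rw [ha]; rfl
  have hbt : ∀ c, b (c, true) = B c := by intro c; rw [hb]; rfl
  have hbf : ∀ c, b (c, false) = -A c := by intro c; rw [hb]; rfl
  have hKt : ∀ c, K (c, true) = k c := by intro c; rw [hK]; rfl
  have hKf : ∀ c, K (c, false) = -k c := by intro c; rw [hK]; rfl
  have hFneg : ∀ x, F lam (-x) = -F lam x := by
    intro x
    unfold F
    rw [Real.sin_neg]
    ring
  have hmain := fun c1 c2 => dim_bound (ι := ι × Bool) (a := a) (b := b) (k := K)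
    (M := fun c => M c.1) (γ := 2 * (4 / √lam)) (s := s) hlam (by positivity) hs0
    (by
      rintro ⟨c, _ | _⟩
      · rw [haf, hbf]
        linarith [(hAB c).1]
      · rw [hat, hbt]
        exact (hAB c).1)
    (by
      rintro ⟨c, _ | _⟩
      · rw [haf, hbf]
        constructor <;> linarith [(hAB c).1, (hAB c).2.1, (hAB c).2.2]
      · rw [hat, hbt]
        constructor <;> linarith [(hAB c).1, (hAB c).2.1, (hAB c).2.2])
    (by
      rintro ⟨c, _ | _⟩ x hx
      · rw [haf, hbf] at hx
        have := hder c (-x) ⟨by linarith [hx.2], by linarith [hx.1]⟩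
        rw [Real.cos_neg] at this
        exact this
      · rw [hat, hbt] at hx
        exact hder c x hx)
    (by
      rintro ⟨c, _ | _⟩
      · rw [haf, hbf, hKf, hFneg, hFneg]
        push_cast
        rcases hcov c with ⟨h1, h2⟩ | ⟨h1, h2⟩
        · left
          constructor <;> linarith
        · right
          constructor <;> linarith
      · rw [hat, hbt, hKt]
        exact hcov c)
    (by
      rintro ⟨c, _ | _⟩ ⟨c', _ | _⟩ hne
      · have hcc : c ≠ c' := fun h => hne (by rw [h])
        rw [haf, hbf, hKf, haf, hbf, hKf]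
        rcases hsep c c' hcc with h1 | h1
        · left
          omega
        · right
          intro x hx x' hx'
          have := h1 (-x) ⟨by linarith [hx.2], by linarith [hx.1]⟩ (-x')
            ⟨by linarith [hx'.2], by linarith [hx'.1]⟩
          have e : -x - -x' = -(x - x') := by ring
          rw [e, abs_neg] at this
          exact this
      · left
        rw [hKf, hKt]
        have := hk c
        have := hk c'
        omega
      · left
        rw [hKf, hKt]
        have := hk c
        have := hk c'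
        omega
      · have hcc : c ≠ c' := fun h => hne (by rw [h])
        rw [hat, hbt, hKt, hat, hbt, hKt]
        exact hsep c c' hcc)
    (by
      -- the sum
      rw [Fintype.sum_prod_type]
      simp only [Fintype.sum_bool]
      have hterm : ∀ c, (1 + 9 / q) * (1 - 0.2565 / q) * (M c)⁻¹ ≤ (M c + 1) ^ (-s) := by
        intro c
        have hMc := hM c
        rw [← hq] at hMc
        have hM0 : 0 < M c := by linarith
        have e1 : (M c + 1) ^ (-s) = (M c + 1) ^ (1 - s) * (M c + 1)⁻¹ := by
          rw [← Real.rpow_neg_one, ← Real.rpow_add (by linarith)]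
          congr 1
          ring
        have e2 : 1 + 9 / q ≤ (M c + 1) ^ (1 - s) := by
          have e3 : q ^ (1 - s) = Real.exp (9 / q) := by
            rw [Real.rpow_def_of_pos hq0, hsd]
            congr 1
            have : Real.log q ≠ 0 := by linarith
            field_simp
            ring
          have e4 : q ^ (1 - s) ≤ (M c + 1) ^ (1 - s) :=
            Real.rpow_le_rpow hq0.le (by linarith) (by linarith)
          rw [e3] at e4
          have := Real.add_one_le_exp (9 / q)
          linarith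
        have e5 : (1 - 0.2565 / q) * (M c)⁻¹ ≤ (M c + 1)⁻¹ := by
          rw [← div_eq_mul_inv, div_le_iff₀ hM0, inv_mul_eq_div, le_div_iff₀ (by linarith)]
          have e6 : 1 ≤ 0.2565 / q * (M c + 1) := by
            rw [div_mul_eq_mul_div, le_div_iff₀ hq0]
            linarith
          linarith
        have e7 : 0 ≤ (M c + 1)⁻¹ := by positivity
        rw [e1, mul_assoc]
        exact mul_le_mul e2 e5 (by
          have : 0.2565 / q ≤ 1 := by
            rw [div_le_one hq0]
            linarith
          have : 0 ≤ (M c)⁻¹ := by positivity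
          exact mul_nonneg (by linarith) this) (by positivity)
      have h1 : ∑ c, (1 + 9 / q) * (1 - 0.2565 / q) * (M c)⁻¹ ≤ ∑ c, (M c + 1) ^ (-s) :=
        Finset.sum_le_sum fun c _ => hterm c
      rw [← Finset.mul_sum] at h1
      rw [← hq] at hsum
      have hx : q⁻¹ ≤ 1 / 40 := by
        rw [inv_le_comm₀ hq0 (by norm_num)]
        linarith
      obtain ⟨x, hxd⟩ : ∃ x : ℝ, x = q⁻¹ := ⟨_, rfl⟩
      have hx0 : 0 < x := by rw [hxd]; positivity
      rw [← hxd] at hx
      have d1 : 9 / q = 9 * x := by rw [hxd, div_eq_mul_inv]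
      have d2 : 0.2565 / q = 0.2565 * x := by rw [hxd, div_eq_mul_inv]
      have d3 : 6.9 / q = 6.9 * x := by rw [hxd, div_eq_mul_inv]
      rw [d1, d2] at h1
      rw [d3] at hsum
      have h2 : 1 / 2 ≤ (1 + 9 * x) * (1 - 0.2565 * x) * (1 / 2 * (1 - 6.9 * x)) := by
        nlinarith [mul_nonneg hx0.le (by linarith : 0 ≤ 1 / 40 - x), sq_nonneg x,
          mul_nonneg (mul_nonneg hx0.le hx0.le) (by linarith : 0 ≤ 1 / 40 - x)]
      have h3 : (1 + 9 * x) * (1 - 0.2565 * x) * (1 / 2 * (1 - 6.9 * x)) ≤
          (1 + 9 * x) * (1 - 0.2565 * x) * ∑ c, (M c)⁻¹ := by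
        apply mul_le_mul_of_nonneg_left hsum
        exact mul_nonneg (by linarith) (by linarith)
      have h4 : 1 / 2 ≤ ∑ c, (M c + 1) ^ (-s) := (h2.trans h3).trans h1
      rw [Finset.sum_add_distrib]
      linarith) c1 c2
  -- the density
  have hden2 : ∀ X : ℝ, |X| ≤ Real.pi → ∃ c : ι × Bool, ∀ x' ∈ Set.Icc (a c) (b c),
      |x' - X| ≤ 9 / √lam := by
    intro X hX
    rcases le_total 0 X with h0 | h0
    · rw [abs_of_nonneg h0] at hX
      obtain ⟨c, hc⟩ := hden X h0 hX
      refine ⟨(c, true), ?_⟩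
      rw [hat, hbt]
      exact hc
    · rw [abs_of_nonpos h0] at hX
      obtain ⟨c, hc⟩ := hden (-X) (by linarith) hX
      refine ⟨(c, false), ?_⟩
      rw [haf, hbf]
      intro x' hx'
      have := hc (-x') ⟨by linarith [hx'.2], by linarith [hx'.1]⟩
      have e : -x' - -X = -(x' - X) := by ring
      rw [e, abs_neg] at this
      exact this
  obtain ⟨c2, hc2⟩ := hden2 p.1.toReal (Real.Angle.abs_toReal_le_pi _)
  obtain ⟨c1, hc1⟩ := hden2 p.2.toReal (Real.Angle.abs_toReal_le_pi _)
  have hnorm : ∀ (x : ℝ) (t : Real.Angle), |x - t.toReal| ≤ 9 / √lam →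
      dist (x : Real.Angle) t ≤ 9 / √lam := by
    intro x t hx
    have e1 : dist (x : Real.Angle) t = ‖((x - t.toReal : ℝ) : Real.Angle)‖ := by
      rw [Real.Angle.coe_sub, Real.Angle.coe_toReal, dist_eq_norm]
    rw [e1]
    refine le_trans ?_ hx
    have e2 : ‖((x - t.toReal : ℝ) : AddCircle (2 * Real.pi))‖ ≤ ‖x - t.toReal‖ :=
      QuotientAddGroup.norm_mk_le_norm
    exact e2
  refine (hmain c1 c2).trans (dimH_mono ?_)
  rintro z ⟨hz, x2, hx2, x1, hx1, rfl⟩
  refine ⟨?_, hz⟩
  rw [Metric.mem_closedBall, Prod.dist_eq]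
  exact max_le (hnorm _ _ (hc2 x2 hx2)) (hnorm _ _ (hc1 x1 hx1))

end Pool.Agent.Results.MP_31f1e8_mp.LocalDimension
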