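import Pool.Agent.Lib.MP_31f1e8_mp.DefsL
import Pool.Agent.Lib.MP_31f1e8_mp.KLF.Fin
import Pool.Agent.Lib.MP_31f1e8_mp.KM.MainK
import Pool.Agent.Lib.MP_31f1e8_mp.KLC.Main

/-!
# MP_31f1e8: localized eigenvectors on a set of positive measure, for an open dense set of large `lam`

There are `lam0` and an open set `U`, dense in `(lam0, ∞)`, such that for every `lam ∈ U` there is
`rho > 0` for which the set of the points `(x, y)` of the fundamental square `[0, 2π)²` of the torus
where the Schrodinger operator along the orbit of `(x, y)` under the Standard map has infinitely many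
eigenvalues with exponentially decaying eigenvectors of rate `rho` contains a compact set of positive
Lebesgue measure.

`stdMap`, `pointSpectrum` are defined in `Pool.Agent.Lib.MP_31f1e8_mp.Defs`, `localizedSpectrum`
(a subset of `pointSpectrum`) in `Pool.Agent.Lib.MP_31f1e8_mp.DefsL`.
-/

namespace Pool.Agent.Results.MP_31f1e8_mp.PositiveMeasure

open Pool.Agent.MP31f1e8 Set MeasureTheory

theorem result :
    ∃ lam0 : ℝ, ∃ U : Set ℝ, IsOpen U ∧ Ioi lam0 ⊆ closure U ∧ ∀ lam ∈ U, ∃ rho : ℝ, 0 < rho ∧
      ∃ K : Set (ℝ × ℝ), IsCompact K ∧ 0 < volume K ∧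
        K ⊆ {p | p ∈ Ico 0 (2 * Real.pi) ×ˢ Ico 0 (2 * Real.pi) ∧
          (localizedSpectrum lam rho ((p.1 : Real.Angle), (p.2 : Real.Angle))).Infinite} :=
  KLF.main_of KM.mainK KLC.main

/-- In particular the point spectrum is infinite at the points of `K`. -/
theorem pointSpectrum_infinite {lam rho : ℝ} {z : Real.Angle × Real.Angle}
    (h : (localizedSpectrum lam rho z).Infinite) : (pointSpectrum lam z).Infinite :=
  h.mono (localizedSpectrum_subset lam rho z)

end Pool.Agent.Results.MP_31f1e8_mp.PositiveMeasure
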